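import Pool.Agent.H19.SL.GNLa

/-!
# MP_70ba79_ag, board slg_modules: row GNL (a family of curves does not move)
-/

set_option autoImplicit false

namespace Pool.Agent.H19.SL

open MvPolynomial SC Pool.Agent.H27.LV Pool.Agent.H84.SM Pool.Agent.H84.SL
open scoped TensorProduct

/-- extension of a derivation to a formally etale algebra -/
theorem exists_ext (R S T : Type) [CommRing R] [CommRing S] [CommRing T] [Algebra R S]
    [Algebra S T] [Algebra R T] [IsScalarTower R S T] [Algebra.FormallyEtale S T]
    (D₀ : Derivation R S T) :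
    ∃ D : Derivation R T T, ∀ s, D (algebraMap S T s) = D₀ s := by
  let l : T ⊗[S] (Ω[S⁄R]) →ₗ[T] T := D₀.liftKaehlerDifferential.liftBaseChange T
  let e := KaehlerDifferential.tensorKaehlerEquivOfFormallyEtale R S T
  refine ⟨(l ∘ₗ e.symm.toLinearMap).compDer (KaehlerDifferential.D R T), fun s => ?_⟩
  change l (e.symm (KaehlerDifferential.D R T (algebraMap S T s))) = D₀ s
  rw [KaehlerDifferential.tensorKaehlerEquivOfFormallyEtale_symm_D_algebraMap]
  rw [LinearMap.liftBaseChange_tmul, one_smul, Derivation.liftKaehlerDifferential_comp_D]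

section

variable (k L : Type) [Field k] [CharZero k] [Field L] [Algebra k L]

/-- the field of rational functions -/
abbrev MF : Type := FractionRing (Polynomial L)

/-- the derivative of rational functions -/
theorem exists_der : ∃ D : Derivation L (MF L) (MF L), ∀ f : Polynomial L,
    D (algebraMap (Polynomial L) (MF L) f) =
      algebraMap (Polynomial L) (MF L) (Polynomial.derivative f) := by
  have et : Algebra.FormallyEtale (Polynomial L) (MF L) :=
    Algebra.FormallyEtale.of_isLocalization (nonZeroDivisors (Polynomial L))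
  obtain ⟨D, hD⟩ := exists_ext L (Polynomial L) (MF L)
    ((Algebra.linearMap (Polynomial L) (MF L)).compDer Polynomial.derivative')
  exact ⟨D, hD⟩

variable {k L}

omit [CharZero k] in
/-- the value of a derivation at a polynomial -/
theorem der_poly (Δ : Derivation k (MF L) (MF L)) (A : Polynomial L) :
    Δ (algebraMap (Polynomial L) (MF L) A) =
      (pd (fun a : L => Δ (algebraMap L (MF L) a)) A).eval
        (algebraMap (Polynomial L) (MF L) Polynomial.X) +
      Δ (algebraMap (Polynomial L) (MF L) Polynomial.X) *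
        algebraMap (Polynomial L) (MF L) (Polynomial.derivative A) := by
  set θ : MF L := algebraMap (Polynomial L) (MF L) Polynomial.X with hθ
  set δ : L → MF L := fun a : L => Δ (algebraMap L (MF L) a) with hδ
  have h0 : δ 0 = 0 := by rw [hδ]; simp
  induction A using Polynomial.induction_on' with
  | add p q hp hq =>
    have e : pd δ (p + q) = pd δ p + pd δ q := by
      ext j
      rw [pd_coeff δ h0, Polynomial.coeff_add, Polynomial.coeff_add, pd_coeff δ h0, pd_coeff δ h0]
      simp only [hδ, map_add]
    rw [map_add, map_add, hp, hq, e, Polynomial.eval_add, Polynomial.derivative_add, map_add]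
    ring
  | monomial n a =>
    have e : pd δ (Polynomial.monomial n a) = Polynomial.monomial n (δ a) := by
      ext j
      rw [pd_coeff δ h0, Polynomial.coeff_monomial, Polynomial.coeff_monomial]
      split_ifs
      · rfl
      · exact h0
    have e1 : ∀ (b : L) (j : ℕ), algebraMap (Polynomial L) (MF L) (Polynomial.monomial j b) =
        algebraMap L (MF L) b * θ ^ j := by
      intro b j
      rw [← Polynomial.C_mul_X_pow_eq_monomial, map_mul, map_pow]
      rfl
    rw [e, e1, Polynomial.eval_monomial, Polynomial.derivative_monomial, e1, Derivation.leibniz,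
      Derivation.leibniz_pow, map_mul, map_natCast, smul_eq_mul, smul_eq_mul, smul_eq_mul,
      nsmul_eq_mul]
    simp only [hδ]
    ring

/-- the determinant of a vector and two derivatives in affine coordinates -/
theorem dt_affine {M : Type} [Field M] (D E : M → M)
    (hD : ∀ a b, D (a * b) = a * D b + b * D a) (hE : ∀ a b, E (a * b) = a * E b + b * E a)
    (p : Fin 3 → M) (h0 : p 0 ≠ 0) :
    dt p (fun i => D (p i)) (fun i => E (p i)) =
      p 0 ^ 3 * (D (p 1 / p 0) * E (p 2 / p 0) - D (p 2 / p 0) * E (p 1 / p 0)) := by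
  have h1 : p 1 = p 0 * (p 1 / p 0) := by field_simp
  have h2 : p 2 = p 0 * (p 2 / p 0) := by field_simp
  have d1 : D (p 1) = p 0 * D (p 1 / p 0) + p 1 / p 0 * D (p 0) := by rw [← hD, ← h1]
  have d2 : D (p 2) = p 0 * D (p 2 / p 0) + p 2 / p 0 * D (p 0) := by rw [← hD, ← h2]
  have e1 : E (p 1) = p 0 * E (p 1 / p 0) + p 1 / p 0 * E (p 0) := by rw [← hE, ← h1]
  have e2 : E (p 2) = p 0 * E (p 2 / p 0) + p 2 / p 0 * E (p 0) := by rw [← hE, ← h2]
  rw [dt_def, d1, d2, e1, e2]
  generalize D (p 1 / p 0) = u at *
  generalize D (p 2 / p 0) = v at *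
  generalize E (p 1 / p 0) = u' at *
  generalize E (p 2 / p 0) = v' at *
  field_simp
  ring

omit [CharZero k] in
/-- homogeneous polynomials at proportional points -/
theorem aeval_smul_hom {A : Type} [CommRing A] [Algebra k A] (G : MvPolynomial (Fin 3) k) (d : ℕ)
    (hG : G.IsHomogeneous d) (t : A) (x : Fin 3 → A) :
    aeval (fun i => t * x i) G = t ^ d * aeval x G := by
  rw [MvPolynomial.aeval_def, MvPolynomial.aeval_def, MvPolynomial.eval₂_eq',
    MvPolynomial.eval₂_eq', Finset.mul_sum]
  refine Finset.sum_congr rfl fun s hs => ?_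
  have hsd : s 0 + s 1 + s 2 = d := by
    have h1 := hG (MvPolynomial.mem_support_iff.1 hs)
    rw [Finsupp.weight_apply, Finsupp.sum_fintype _ _ (by intro i; simp)] at h1
    simpa [Fin.sum_univ_three] using h1
  rw [Fin.prod_univ_three, Fin.prod_univ_three, ← hsd]
  ring

/-- the curves of the family are not lines through the coordinates: some ratio is not constant -/
theorem not_const (G : MvPolynomial (Fin 3) k) (d : ℕ) (hG : G.IsHomogeneous d) (hd : 1 ≤ d)
    (P : Fin 3 → Polynomial L) (c : L) (m e : ℕ) (hc : c ≠ 0) (he : 1 ≤ e)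
    (hPe : ∃ i, (P i).coeff e ≠ 0) (hP0 : ∃ i, (P i).coeff 0 ≠ 0)
    (hP : aeval P G = Polynomial.C c * Polynomial.X ^ m) (h0 : P 0 ≠ 0)
    (h : ∀ i, Polynomial.derivative (P i) * P 0 = P i * Polynomial.derivative (P 0)) : False := by
  have hL : CharZero L := charZero_of_injective_algebraMap (algebraMap k L).injective
  choose a ha using fun i => exists_const (P i) (P 0) h0 (h i)
  have h1 : aeval P G = P 0 ^ d * Polynomial.C (aeval a G) := by
    have e1 : P = fun i => P 0 * Polynomial.C (a i) := by
      funext i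
      rw [mul_comm]; exact ha i
    have e2 : aeval P G = aeval (fun i => P 0 * Polynomial.C (a i)) G :=
      congrArg (fun z : Fin 3 → Polynomial L => aeval z G) e1
    rw [e2, aeval_smul_hom G d hG]
    congr 1
    have e3 := MvPolynomial.comp_aeval_apply (B := Polynomial L) a
      (Algebra.algHom k L (Polynomial L)) G
    exact e3.symm
  rw [h1] at hP
  have hc0 : (P 0).coeff 0 ≠ 0 := by
    obtain ⟨i, hi⟩ := hP0
    intro h2
    apply hi
    rw [ha i, Polynomial.coeff_C_mul, h2, mul_zero]
  have hg : aeval a G ≠ 0 := by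
    intro h2
    rw [h2, Polynomial.C_0, mul_zero] at hP
    have h3 : Polynomial.C c * Polynomial.X ^ m ≠ 0 :=
      mul_ne_zero (Polynomial.C_ne_zero.2 hc) (pow_ne_zero _ Polynomial.X_ne_zero)
    exact h3 hP.symm
  have hm : m = 0 := by
    by_contra hm
    have h2 := congrArg (fun z : Polynomial L => z.coeff 0) hP
    simp only [Polynomial.mul_coeff_zero, Polynomial.coeff_C_zero, Polynomial.coeff_X_pow,
      if_neg (Ne.symm hm), mul_zero, mul_eq_zero] at h2
    rcases h2 with h2 | h2
    · have h3 : ((P 0) ^ d).coeff 0 = (P 0).coeff 0 ^ d := by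
        rw [Polynomial.coeff_zero_eq_eval_zero, Polynomial.coeff_zero_eq_eval_zero,
          Polynomial.eval_pow]
      rw [h3] at h2
      exact pow_ne_zero _ hc0 h2
    · exact hg h2
  rw [hm, pow_zero, mul_one] at hP
  have hdeg : (P 0).natDegree = 0 := by
    have h2 := congrArg Polynomial.natDegree hP
    rw [Polynomial.natDegree_C, Polynomial.natDegree_mul_C hg, Polynomial.natDegree_pow] at h2
    rcases Nat.mul_eq_zero.1 h2 with h3 | h3
    · omega
    · exact h3
  obtain ⟨i, hi⟩ := hPe
  apply hi
  rw [ha i, Polynomial.coeff_C_mul, Polynomial.coeff_eq_zero_of_natDegree_lt (by omega), mul_zero]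

omit [CharZero k] in
/-- the determinant does not vanish -/
theorem det_ne (der : Derivation L (MF L) (MF L)) (hder : ∀ f : Polynomial L,
    der (algebraMap (Polynomial L) (MF L) f) =
      algebraMap (Polynomial L) (MF L) (Polynomial.derivative f))
    (Δ : Derivation k (MF L) (MF L)) (P : Fin 3 → Polynomial L) (h0 : P 0 ≠ 0)
    (hne : Δ (algebraMap _ (MF L) (P 1) / algebraMap _ (MF L) (P 0)) *
        der (algebraMap _ (MF L) (P 2) / algebraMap _ (MF L) (P 0)) -
      Δ (algebraMap _ (MF L) (P 2) / algebraMap _ (MF L) (P 0)) *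
        der (algebraMap _ (MF L) (P 1) / algebraMap _ (MF L) (P 0)) ≠ 0) :
    dt (fun i => (P i).map (algebraMap L (MF L)))
      (fun i => pd (fun a : L => Δ (algebraMap L (MF L) a)) (P i))
      (fun i => Polynomial.X * (Polynomial.derivative (P i)).map (algebraMap L (MF L))) ≠ 0 := by
  intro hdt
  set θ : MF L := algebraMap (Polynomial L) (MF L) Polynomial.X with hθ
  have hθ0 : θ ≠ 0 := by
    rw [hθ, Ne, map_eq_zero_iff _ (IsFractionRing.injective (Polynomial L) (MF L))]
    exact Polynomial.X_ne_zero
  have hev : ∀ f : Polynomial L, (f.map (algebraMap L (MF L))).eval θ =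
      algebraMap (Polynomial L) (MF L) f := by
    intro f
    rw [Polynomial.eval_map]
    change Polynomial.aeval θ f = _
    rw [hθ, Polynomial.aeval_algebraMap_apply, Polynomial.aeval_X_left_apply]
  set p : Fin 3 → MF L := fun i => algebraMap (Polynomial L) (MF L) (P i) with hp
  have hp0 : p 0 ≠ 0 := by
    rw [hp]
    change algebraMap (Polynomial L) (MF L) (P 0) ≠ 0
    rw [Ne, map_eq_zero_iff _ (IsFractionRing.injective (Polynomial L) (MF L))]
    exact h0
  have h1 := congrArg (Polynomial.evalRingHom θ) hdt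
  rw [map_zero, dt_map] at h1
  simp only [Polynomial.coe_evalRingHom, Polynomial.eval_mul, Polynomial.eval_X, hev] at h1
  have hΔ : ∀ i, (pd (fun a : L => Δ (algebraMap L (MF L) a)) (P i)).eval θ =
      Δ (p i) - Δ θ * der (p i) := by
    intro i
    have := der_poly Δ (P i)
    rw [hp]
    change _ = Δ (algebraMap (Polynomial L) (MF L) (P i)) - _ * der (algebraMap (Polynomial L) (MF L) (P i))
    rw [this, hder]
    ring
  have hd : ∀ i, algebraMap (Polynomial L) (MF L) (Polynomial.derivative (P i)) = der (p i) :=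
    fun i => (hder (P i)).symm
  simp only [hΔ, hd] at h1
  have h2 : θ * dt p (fun i => Δ (p i)) (fun i => der (p i)) = 0 := by
    rw [← h1, dt_def, dt_def]
    ring
  rw [dt_affine (fun z => Δ z) (fun z => der z)
    (fun a b => by rw [Derivation.leibniz, smul_eq_mul, smul_eq_mul])
    (fun a b => by rw [Derivation.leibniz, smul_eq_mul, smul_eq_mul]) p hp0] at h2
  rcases mul_eq_zero.1 h2 with h3 | h3
  · exact hθ0 h3
  rcases mul_eq_zero.1 h3 with h4 | h4
  · exact pow_ne_zero _ hp0 h4
  · exact hne h4

/-- the degree of the logarithmic derivative -/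
theorem X_der_natDegree {M : Type} [Field M] (B : Polynomial M) (e : ℕ) (h : B.natDegree ≤ e) :
    (Polynomial.X * Polynomial.derivative B).natDegree ≤ e := by
  rw [Polynomial.natDegree_le_iff_coeff_eq_zero]
  intro n hn
  cases n with
  | zero => rw [Polynomial.coeff_X_mul_zero]
  | succ n =>
    rw [Polynomial.coeff_X_mul, Polynomial.coeff_derivative,
      Polynomial.coeff_eq_zero_of_natDegree_lt (by omega), zero_mul]

end

theorem pf_GNL (hGNA : T_GNA) (hDRV : T_DRV) (hHNZ : T_HNZ) : T_GNL := by
  intro k _ _ _ G d hd hG L _ _ P c m e hc he hdeg hPe hP0 hP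
  by_contra hcon
  push Not at hcon
  have hinj := IsFractionRing.injective (Polynomial L) (MF L)
  -- the point in the field of rational functions
  set p : Fin 3 → MF L := fun i => algebraMap (Polynomial L) (MF L) (P i) with hp
  have hhom : ∀ (N : ℕ) (Ψ : MvPolynomial (Fin 3) k), Ψ ≠ 0 → Ψ.IsHomogeneous N →
      aeval p Ψ ≠ 0 := by
    intro N Ψ h1 h2 h3
    have h4 := MvPolynomial.comp_aeval_apply (B := MF L) P
      (IsScalarTower.toAlgHom k (Polynomial L) (MF L)) Ψ
    have h5 : algebraMap (Polynomial L) (MF L) (aeval P Ψ) = 0 := h4.trans h3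
    exact hcon N Ψ h1 h2 ((map_eq_zero_iff _ hinj).1 h5)
  have h0 : P 0 ≠ 0 := by
    have := hcon 1 (X 0) (X_ne_zero 0) (isHomogeneous_X _ _)
    rwa [aeval_X] at this
  have hp0 : p 0 ≠ 0 := by
    intro h1
    exact h0 ((map_eq_zero_iff _ hinj).1 h1)
  obtain ⟨der, hder⟩ := exists_der L
  -- some ratio has a nonzero derivative
  have key : ∀ i, Polynomial.derivative (P i) * P 0 ≠ P i * Polynomial.derivative (P 0) →
      der (p i / p 0) ≠ 0 := by
    intro i hi h1
    apply hi
    have h2 : p i = p 0 * (p i / p 0) := by field_simp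
    have h3 : der (p i) = p i / p 0 * der (p 0) := by
      have := Derivation.leibniz der (p 0) (p i / p 0)
      rw [← h2, h1, smul_zero, zero_add, smul_eq_mul] at this
      exact this
    have h4 : der (p i) * p 0 = p i * der (p 0) := by
      rw [h3]; field_simp
    have h5 : algebraMap (Polynomial L) (MF L) (Polynomial.derivative (P i) * P 0) =
        algebraMap (Polynomial L) (MF L) (P i * Polynomial.derivative (P 0)) := by
      rw [map_mul, map_mul, ← hder, ← hder]
      exact h4
    exact hinj h5
  have hex : ∃ i, Polynomial.derivative (P i) * P 0 ≠ P i * Polynomial.derivative (P 0) := by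
    by_contra h1
    push Not at h1
    exact not_const G d hG.1 (by omega) P c m e hc he hPe hP0 hP h0 h1
  -- the derivation
  have hΔ : ∃ Δ : Derivation k (MF L) (MF L), Δ (p 1 / p 0) * der (p 2 / p 0) -
      Δ (p 2 / p 0) * der (p 1 / p 0) ≠ 0 := by
    obtain ⟨i, hi⟩ := hex
    have hd' := key i hi
    have hi' : i = 0 ∨ i = 1 ∨ i = 2 := by
      fin_cases i <;> simp
    rcases hi' with rfl | rfl | rfl
    · exact absurd (mul_comm _ _) hi
    · obtain ⟨Δ, hΔ1, hΔ2⟩ := hDRV k (MF L) _ _ (hHNZ k (MF L) p hhom 0 1 2 (by decide) (by decide)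
        (by decide))
      refine ⟨Δ, ?_⟩
      rw [hΔ1, zero_mul, zero_sub, neg_ne_zero]
      exact mul_ne_zero hΔ2 hd'
    · obtain ⟨Δ, hΔ1, hΔ2⟩ := hDRV k (MF L) _ _ (hHNZ k (MF L) p hhom 0 2 1 (by decide) (by decide)
        (by decide))
      refine ⟨Δ, ?_⟩
      rw [hΔ1, zero_mul, sub_zero]
      exact mul_ne_zero hΔ2 hd'
  obtain ⟨Δ, hΔ⟩ := hΔ
  have hD := det_ne der hder Δ P h0 hΔ
  -- the three vectors
  set δ : L → MF L := fun a : L => Δ (algebraMap L (MF L) a) with hδ
  have hδ0 : δ 0 = 0 := by rw [hδ]; simp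
  let δ' : Derivation k L (MF L) := Δ.compAlgebraMap L
  have hδ' : ∀ A : Polynomial L, pd δ' A = pd δ A := fun A => rfl
  set a : Fin 3 → Polynomial (MF L) := fun i => (P i).map (algebraMap L (MF L)) with ha
  set b : Fin 3 → Polynomial (MF L) := fun i => pd δ (P i) with hb
  set v : Fin 3 → Polynomial (MF L) := fun i =>
    Polynomial.X * (Polynomial.derivative (P i)).map (algebraMap L (MF L)) with hv
  have hv' : ∀ i, v i = Polynomial.X * Polynomial.derivative (a i) := fun i => by
    rw [hv, ha]
    simp only [Polynomial.derivative_map]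
  have na : ∀ i, (a i).natDegree ≤ e := fun i => Polynomial.natDegree_map_le.trans (hdeg i)
  have nb : ∀ i, (b i).natDegree ≤ e := fun i => pd_natDegree δ hδ0 _ e (hdeg i)
  have nv : ∀ i, (v i).natDegree ≤ e := fun i => by
    rw [hv']; exact X_der_natDegree _ e (na i)
  apply hD
  refine both_ends (dt a b v) d e m hd he (dt_natDegree e a b v na nb nv)
    (hGNA k G d (by omega) hG L (MF L) δ' P c m hc hP0 hP) ?_
  intro hm
  -- the reflected family
  have hQ : aeval (fun i => (P i).reflect e) G =
      Polynomial.C c * Polynomial.X ^ (d * e - m) := by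
    rw [reflect_aeval G d e hG.1 P hdeg, hP, Polynomial.reflect_C_mul_X_pow,
      Polynomial.revAt_le hm]
  have hQ0 : ∃ i, ((P i).reflect e).coeff 0 ≠ 0 := by
    obtain ⟨i, hi⟩ := hPe
    refine ⟨i, ?_⟩
    rw [Polynomial.coeff_reflect, Polynomial.revAt_zero]
    exact hi
  have h1 := hGNA k G d (by omega) hG L (MF L) δ' (fun i => (P i).reflect e) c (d * e - m) hc
    hQ0 hQ
  have e1 : ∀ i, ((P i).reflect e).map (algebraMap L (MF L)) = (a i).reflect e := fun i =>
    (Polynomial.reflect_map _ _ _).symm
  have e2 : ∀ i, pd δ' ((P i).reflect e) = (b i).reflect e := fun i => by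
    rw [hδ', pd_reflect δ hδ0]
  have e3 : ∀ i, Polynomial.X * (Polynomial.derivative ((P i).reflect e)).map
      (algebraMap L (MF L)) = Polynomial.C (e : MF L) * (a i).reflect e - (v i).reflect e := by
    intro i
    rw [← Polynomial.derivative_map, e1, X_derivative_reflect (a i) e (na i), hv']
  simp only [e1, e2, e3] at h1
  have e4 : dt (fun i => (a i).reflect e) (fun i => (b i).reflect e)
      (fun i => Polynomial.C (e : MF L) * (a i).reflect e - (v i).reflect e) =
      - (dt a b v).reflect (3 * e) := by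
    rw [← dt_reflect e a b v na nb nv, dt_def, dt_def]
    ring
  rw [e4] at h1
  exact (dvd_neg.1 h1)

end Pool.Agent.H19.SL
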