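import Pool.Agent.H84.SL.Targets
import Pool.Agent.H16.SM.EXT

/-!
# MP_70ba79_ag, board slg_modules: row FID (the fundamental identity)
-/

set_option autoImplicit false
set_option linter.overlappingInstances false

namespace Pool.Agent.H19.SL

open MvPolynomial SC Pool.Agent.H27.LV Pool.Agent.H84.SM Pool.Agent.H84.SL
open IsDedekindDomain Pool.Agent.H76.KN Pool.Agent.H62.FR

section

variable {k E L : Type} [Field k] [IsAlgClosed k] [CharZero k] [Field E] [Field L] [Algebra k E]
  [Algebra k L] [Algebra E L] [IsScalarTower k E L] [FiniteDimensional E L]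
  [Algebra.EssFiniteType k E] [Algebra.EssFiniteType k L]

/-- the residue field of a place of a curve is the field of constants -/
theorem res_surj (htr : Algebra.trdeg k E = 1) (Q : DV k E) :
    Function.Surjective (algebraMap k (Q.vs ⧸ IsLocalRing.maximalIdeal Q.vs)) := by
  intro y
  obtain ⟨z, rfl⟩ := Ideal.Quotient.mk_surjective y
  obtain ⟨c, hc⟩ := (rat k E htr Q).2 (z : E) z.2
  refine ⟨c, ?_⟩
  have e : algebraMap k (Q.vs ⧸ IsLocalRing.maximalIdeal Q.vs) c =
      Ideal.Quotient.mk _ (algebraMap k Q.vs c) := rfl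
  rw [e, eq_comm, Ideal.Quotient.eq, IsLocalRing.mem_maximalIdeal, mem_nonunits_iff,
    DV.isUnit_vs_iff]
  rintro ⟨h1, h2⟩
  rcases hc with h | h
  · exact h1 h
  · have h3 : Q.ord ((z - algebraMap k Q.vs c : Q.vs) : E) = Q.ord ((z : E) - algebraMap k E c) := rfl
    rw [h3] at h2
    omega

theorem fund (htr : Algebra.trdeg k E = 1) (htL : Algebra.trdeg k L = 1) (Q : DV k E) :
    {v : DV k L | ∃ e, Over Q v e}.Finite ∧
    ∑ᶠ v ∈ {v : DV k L | ∃ e, Over Q v e}, (v.ord (algebraMap E L Q.unif)).toNat =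
      Module.finrank E L := by
  have hfs : FaithfulSMul Q.vs (BB L Q) := (faithfulSMul_iff_algebraMap_injective _ _).2 (by
    intro a b h
    have h1 : algebraMap E L (a : E) = algebraMap E L (b : E) :=
      congrArg (algebraMap (BB L Q) L) h
    exact Subtype.ext ((algebraMap E L).injective h1))
  have htf : Module.IsTorsionFree Q.vs (BB L Q) := inferInstance
  set p : Ideal Q.vs := IsLocalRing.maximalIdeal Q.vs with hp
  have hpm : p.IsMaximal := IsLocalRing.maximalIdeal.isMaximal _
  have hps : p = Ideal.span {tt Q} := maximalIdeal_eq Q (tt Q) Q.ord_unif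
  have hfin : (p.primesOver (BB L Q)).Finite := Algebra.QuasiFinite.finite_primesOver p
  have hft : Fintype (p.primesOver (BB L Q)) := hfin.fintype
  have hpb : p ≠ ⊥ := by
    rw [hps, Ne, Ideal.span_singleton_eq_bot]; exact tt_ne Q
  have hq : ∀ q : p.primesOver (BB L Q), q.1 ≠ ⊥ := by
    intro q hq
    have h1 := q.2.2.over
    rw [hq] at h1
    apply hpb
    rw [h1, Ideal.under_bot]
  let H : p.primesOver (BB L Q) → HeightOneSpectrum (BB L Q) := fun q => ⟨q.1, q.2.1, hq q⟩
  let φ : p.primesOver (BB L Q) → DV k L := fun q => pl Q (H q)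
  have hφinj : Function.Injective φ := by
    intro q q' h
    have h1 := pl_injective Q h
    exact Subtype.ext (congrArg HeightOneSpectrum.asIdeal h1)
  have hset : {v : DV k L | ∃ e, Over Q v e} = Set.range φ := by
    ext v
    constructor
    · rintro ⟨e, he⟩
      obtain ⟨P, hP⟩ := exists_pl Q v e he
      refine ⟨⟨P.asIdeal, P.isPrime, ⟨?_⟩⟩, hP⟩
      exact (comap_eq Q P).symm
    · rintro ⟨q, rfl⟩
      exact ⟨_, pl_over Q (H q)⟩
  have hφord : ∀ q, ((φ q).ord (algebraMap E L Q.unif)).toNat = q.1.ramificationIdx Q.vs := by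
    intro q
    have : (H q).asIdeal.LiesOver p := q.2.2
    have h1 := ram_eq (k := k) (K := L) (H q) p (tt Q) (tt_ne Q) hps
    have h2 : (φ q).ord (algebraMap E L Q.unif) = (q.1.ramificationIdx Q.vs : ℤ) := h1
    rw [h2, Int.toNat_natCast]
  have hφdeg : ∀ q : p.primesOver (BB L Q), q.1.inertiaDeg Q.vs = 1 := by
    intro q
    have : (H q).asIdeal.LiesOver p := q.2.2
    have h1 := deg_eq (k := k) (K := L) (H q) p (res_surj htr Q)
    rw [(rat k L htL _).1] at h1
    exact h1.symm
  refine ⟨?_, ?_⟩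
  · rw [hset]; exact Set.finite_range φ
  · have hfree : Module.Free Q.vs (BB L Q) := Module.free_of_finite_type_torsion_free'
    have hflat : Module.Flat Q.vs (BB L Q) := inferInstance
    have h1 := Ideal.sum_ramification_inertia_eq_finrank p (BB L Q)
    rw [hset, finsum_mem_range hφinj, finsum_eq_sum_of_fintype,
      IsFractionRing.finrank_eq Q.vs E (BB L Q) L, ← h1]
    refine Finset.sum_congr rfl fun q _ => ?_
    rw [hφord, hφdeg, mul_one]

end

theorem pf_FID (_hRES : T_RES) : T_FID := by
  intro k K0 K _ _ _ _ _ _ _ _ _ ι h0 h1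
  let _ : Algebra K0 K := ι.toRingHom.toAlgebra
  have ht : IsScalarTower k K0 K := IsScalarTower.of_algebraMap_eq fun c => (ι.commutes c).symm
  have hfd : FiniteDimensional K0 K := Pool.Agent.H16.SM.fin_of_trdeg k K0 K h0 h1
  refine ⟨Module.finrank K0 K, Module.finrank_pos, fun w => ?_⟩
  obtain ⟨f1, f2⟩ := fund (L := K) h0 h1 w
  have hrho : ∀ v : DV k K, (∃ e, Over w v e) →
      rho ι v w = (v.ord (algebraMap K0 K w.unif)).toNat := by
    intro v hv
    unfold rho
    rw [if_pos]
    · rfl
    · obtain ⟨e, he⟩ := hv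
      exact ⟨e, he.1, he.2⟩
  have hpos : ∀ v : DV k K, (∃ e, Over w v e) → rho ι v w ≠ 0 := by
    intro v hv
    rw [hrho v hv]
    obtain ⟨e, he1, he2⟩ := hv
    rw [he2, w.ord_unif]
    omega
  have hzero : ∀ v : DV k K, (¬ ∃ e, Over w v e) → rho ι v w = 0 := by
    intro v hv
    unfold rho
    rw [if_neg]
    rintro ⟨e, he1, he2⟩
    exact hv ⟨e, he1, he2⟩
  have hset : {v : DV k K | rho ι v w ≠ 0} = {v : DV k K | ∃ e, Over w v e} := by
    ext v
    constructor
    · intro hv
      by_contra hcon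
      exact hv (hzero v hcon)
    · intro hv
      exact hpos v hv
  refine ⟨by rw [hset]; exact f1, ?_⟩
  rw [← f2]
  have hsup : Function.support (fun v : DV k K => rho ι v w) = {v : DV k K | ∃ e, Over w v e} := hset
  rw [← finsum_mem_support, hsup]
  exact finsum_mem_congr rfl fun v hv => hrho v hv

end Pool.Agent.H19.SL
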