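import Pool.Agent.H84.SL.Targets
import Pool.Agent.H16.SM.EXT

/-!
# MP_70ba79_ag, board slg_modules: row RES (restriction of places)
-/

set_option autoImplicit false

namespace Pool.Agent.H19.SL

open MvPolynomial SC Pool.Agent.H27.LV Pool.Agent.H84.SM Pool.Agent.H84.SL

theorem exists_ord_ne (k K0 K : Type) [Field k] [Field K0] [Algebra k K0] [Field K] [Algebra k K]
    [Algebra K0 K] [FiniteDimensional K0 K] (v : DV k K) :
    ∃ x : K0, v.ord (algebraMap K0 K x) ≠ 0 := by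
  by_contra hcon
  push Not at hcon
  let v' : DV K0 K := ⟨v.ord, v.ord_zero, v.ord_mul, v.ord_add, hcon, v.ord_surj⟩
  have h1 : v'.ord v.unif = 0 :=
    Pool.Agent.H36.SC.ord_eq_zero_of_isAlgebraic v' (Algebra.IsAlgebraic.isAlgebraic _)
  have h2 : v.ord v.unif = 0 := h1
  rw [v.ord_unif] at h2
  exact one_ne_zero h2

theorem pf_RES : T_RES := by
  intro k K0 K _ _ _ _ _ _ _ _ _ ι h0 h1 v
  let _ : Algebra K0 K := ι.toRingHom.toAlgebra
  have ht : IsScalarTower k K0 K := IsScalarTower.of_algebraMap_eq fun c => (ι.commutes c).symm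
  have hfd : FiniteDimensional K0 K := Pool.Agent.H16.SM.fin_of_trdeg k K0 K h0 h1
  obtain ⟨w, e, he, hw⟩ := t_V2 k K0 k K v (exists_ord_ne k K0 K v)
  exact ⟨w, e, he, hw⟩

end Pool.Agent.H19.SL
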