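import Pool.Agent.H29.SL.Targets2
import Pool.Agent.H48.SL.L2

/-!
Module `E1` of the board `so_modules` (`MP_5b3ee2_nt`): class II primes with `e = 1` and
`p ^ c > q + 1`.
-/

set_option autoImplicit false

namespace Pool.Agent.H19.SL

open Pool.Agent.H29.SL Pool.Agent.H48.SLL2

/-- `X ≡ b` modulo `P` with `0 ≤ b < P`, `X ≠ b`: `X > P` for `b > 0`. -/
theorem gt_of_dvd {P X b : ℕ} (hb : 0 < b) (hbP : b < P) (h : (P : ℤ) ∣ (X : ℤ) - b)
    (hne : X ≠ b) : P < X := by
  obtain ⟨t, ht⟩ := h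
  have hP : (0 : ℤ) < P := by exact_mod_cast (by omega : 0 < P)
  have h1 : (b : ℤ) < P := by exact_mod_cast hbP
  have h2 : (0 : ℤ) ≤ X := by positivity
  have h3 : (0 : ℤ) < b := by exact_mod_cast hb
  have ht0 : 0 ≤ t := by
    by_contra hlt
    have : t ≤ -1 := by omega
    nlinarith
  have ht1 : t ≠ 0 := by
    rintro rfl
    apply hne
    have : (X : ℤ) = b := by linarith
    exact_mod_cast this
  have ht2 : 1 ≤ t := by omega
  have : (P : ℤ) < X := by nlinarith
  exact_mod_cast this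

theorem pf_E1 : T_E1 := by
  intro p q c a u hp hp7 hq hc hca ha hd hnd hsg hlt
  have hmul := sg_mul p a (by omega)
  rw [← hsg] at hmul
  have hX : q * ((p - 1) * u) + 1 = p ^ (a + 1) := by
    rw [← hmul]; ring
  set X := (p - 1) * u with hXdef
  have hu : 0 < u := by
    rcases Nat.eq_zero_or_pos u with h0 | h0
    · exfalso
      rw [h0, mul_zero] at hsg
      have : 1 ≤ sg p a := by
        unfold sg
        exact (Finset.single_le_sum (f := fun i => p ^ i) (fun i _ => Nat.zero_le _)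
          (Finset.mem_range.mpr (Nat.succ_pos a)))
      omega
    · exact h0
  have hPX : p ^ c ∣ q * X + 1 := by rw [hX]; exact pow_dvd_pow p (by omega)
  have hpq : ¬ p ∣ q := by
    intro h
    have h1 : p ∣ q ^ 4 + q ^ 2 + 1 := (dvd_pow_self p (by omega)).trans hd
    have h2 : p ∣ q ^ 4 + q ^ 2 := dvd_add (h.trans (dvd_pow_self q (by norm_num)))
      (h.trans (dvd_pow_self q (by norm_num)))
    have h3 : p ∣ 1 := (Nat.dvd_add_right h2).mp h1
    have := Nat.le_of_dvd one_pos h3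
    omega
  have hcopN : Nat.Coprime (p ^ c) q :=
    Nat.Coprime.pow_left c ((Nat.Prime.coprime_iff_not_dvd hp).mpr hpq)
  have hcopZ : IsCoprime ((p ^ c : ℕ) : ℤ) (q : ℤ) := Nat.isCoprime_iff_coprime.mpr hcopN
  have hPXZ : ((p ^ c : ℕ) : ℤ) ∣ (q : ℤ) * X + 1 := by exact_mod_cast hPX
  have hfac := factor q
  have hq1 : q ≤ q ^ 2 + 1 := by nlinarith
  have hZ : ((q ^ 2 + 1 - q : ℕ) : ℤ) = (q : ℤ) ^ 2 + 1 - q := by
    rw [Nat.cast_sub hq1]; push_cast; ring
  have hboth : p ^ c < X ∧ p ^ c ≤ q ^ 2 + q + 1 := by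
    rcases split hp hp7 hd with h | h
    · refine ⟨?_, Nat.le_of_dvd (Nat.succ_pos _) h⟩
      apply gt_of_dvd (b := q + 1) (Nat.succ_pos _) hlt
      · apply hcopZ.dvd_of_dvd_mul_left
        have h1 : ((p ^ c : ℕ) : ℤ) ∣ (q : ℤ) ^ 2 + q + 1 := by exact_mod_cast h
        have h2 := dvd_sub hPXZ h1
        have e : (q : ℤ) * X + 1 - ((q : ℤ) ^ 2 + q + 1) = q * ((X : ℤ) - ((q + 1 : ℕ) : ℤ)) := by
          push_cast; ring
        rwa [e] at h2
      · intro hXe
        apply hnd
        rw [← hX, hXe, hfac]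
        exact Dvd.intro (q ^ 2 + 1 - q) (by ring)
    · constructor
      · apply gt_of_dvd (b := q - 1) (by omega) (by omega)
        · apply hcopZ.dvd_of_dvd_mul_left
          have h1 : ((p ^ c : ℕ) : ℤ) ∣ (q : ℤ) ^ 2 + 1 - q := by
            rw [← hZ]; exact_mod_cast h
          have h2 := dvd_sub hPXZ h1
          have e : (q : ℤ) * X + 1 - ((q : ℤ) ^ 2 + 1 - q) = q * ((X : ℤ) - ((q - 1 : ℕ) : ℤ)) := by
            rw [Nat.cast_sub (by omega : 1 ≤ q)]; push_cast; ring
          rwa [e] at h2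
        · intro hXe
          apply hnd
          have e2 : q * X + 1 = q ^ 2 + 1 - q := by
            rw [hXe]
            obtain ⟨y, rfl⟩ : ∃ y, q = y + 1 := ⟨q - 1, by omega⟩
            rw [Nat.add_sub_cancel]
            have : (y + 1) ^ 2 + 1 = ((y + 1) * y + 1) + (y + 1) := by ring
            rw [this, Nat.add_sub_cancel]
          rw [← hX, e2, hfac]
          exact Dvd.intro_left (q ^ 2 + q + 1) rfl
      · have h1 : 0 < q ^ 2 + 1 - q := by
          have : (0 : ℤ) < ((q ^ 2 + 1 - q : ℕ) : ℤ) := by rw [hZ]; nlinarith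
          exact_mod_cast this
        have := Nat.le_of_dvd h1 h
        omega
  obtain ⟨hPltX, hPle⟩ := hboth
  -- `c < a`
  have hac : c + 1 ≤ a := by
    by_contra hcon
    have hceq : a = c := by omega
    subst hceq
    have hc2 : 2 ≤ a := by
      rcases ha with ⟨r, hr⟩
      omega
    have h1 : q < p := by
      by_contra hge
      push Not at hge
      have h2 : p * p ^ a ≤ q * X := Nat.mul_le_mul hge hPltX.le
      have h3 : p ^ (a + 1) = p * p ^ a := by ring
      omega
    have h2 : p ^ 2 ≤ p ^ a := Nat.pow_le_pow_right (by omega) hc2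
    have h3 : (q + 1) ^ 2 ≤ p ^ 2 := Nat.pow_le_pow_left h1 2
    nlinarith
  have hqu : p * p ^ c < q * u := by
    rw [hsg]
    have h1 : p ^ a < sg p a := by
      unfold sg
      rw [Finset.sum_range_succ]
      have : 0 < ∑ i ∈ Finset.range a, p ^ i :=
        Finset.sum_pos (fun i _ => Nat.pow_pos (by omega)) ⟨0, Finset.mem_range.mpr (by omega)⟩
      omega
    have h2 : p ^ (c + 1) ≤ p ^ a := Nat.pow_le_pow_right (by omega) hac
    have h3 : p ^ (c + 1) = p * p ^ c := by ring
    omega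
  have hpu : p ^ c < p * u := by
    have : X < p * u := by
      rw [hXdef]
      exact Nat.mul_lt_mul_of_pos_right (by omega) hu
    omega
  have h5 : p ^ c * (p * p ^ c) < (p * u) * (q * u) := Nat.mul_lt_mul'' hpu hqu
  have h6 : p * (p ^ c) ^ 2 < p * (q * u ^ 2) := by
    calc p * (p ^ c) ^ 2 = p ^ c * (p * p ^ c) := by ring
      _ < (p * u) * (q * u) := h5
      _ = p * (q * u ^ 2) := by ring
  exact Nat.lt_of_mul_lt_mul_left h6

end Pool.Agent.H19.SL
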