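import Pool.Agent.H84.SL.Targets

/-!
# MP_70ba79_ag, board slg_modules: lemmas for the row GNL
-/

set_option autoImplicit false

namespace Pool.Agent.H19.SL

open MvPolynomial SC Pool.Agent.H27.LV Pool.Agent.H84.SM Pool.Agent.H84.SL

/-! ### coefficientwise maps -/

section pd

variable {L M : Type} [Field L] [Field M]

theorem pd_coeff (δ : L → M) (h0 : δ 0 = 0) (A : Polynomial L) (j : ℕ) :
    (pd δ A).coeff j = δ (A.coeff j) := by
  unfold pd
  rw [Polynomial.finsetSum_coeff]
  by_cases hj : j ∈ Finset.range (A.natDegree + 1)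
  · rw [Finset.sum_eq_single_of_mem j hj]
    · rw [Polynomial.coeff_monomial, if_pos rfl]
    · intro b _ hb
      rw [Polynomial.coeff_monomial, if_neg hb]
  · rw [Finset.sum_eq_zero]
    · rw [Finset.mem_range, not_lt] at hj
      rw [Polynomial.coeff_eq_zero_of_natDegree_lt (by omega), h0]
    · intro b hb
      rw [Polynomial.coeff_monomial, if_neg]
      rintro rfl
      exact hj hb

theorem pd_natDegree (δ : L → M) (h0 : δ 0 = 0) (A : Polynomial L) (e : ℕ)
    (h : A.natDegree ≤ e) : (pd δ A).natDegree ≤ e := by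
  rw [Polynomial.natDegree_le_iff_coeff_eq_zero]
  intro n hn
  rw [pd_coeff δ h0, Polynomial.coeff_eq_zero_of_natDegree_lt (by omega), h0]

theorem pd_reflect (δ : L → M) (h0 : δ 0 = 0) (A : Polynomial L) (e : ℕ) :
    pd δ (A.reflect e) = (pd δ A).reflect e := by
  ext j
  rw [pd_coeff δ h0, Polynomial.coeff_reflect, Polynomial.coeff_reflect, pd_coeff δ h0]

end pd

/-! ### reflected polynomials -/

section refl

variable {L : Type} [Field L]

theorem reflect_pow' (A : Polynomial L) (e : ℕ) (h : A.natDegree ≤ e) (n : ℕ) :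
    (A ^ n).reflect (n * e) = (A.reflect e) ^ n := by
  induction n with
  | zero => rw [pow_zero, pow_zero, Nat.zero_mul, Polynomial.reflect_one, pow_zero]
  | succ n ih =>
    rw [pow_succ, pow_succ, Nat.succ_mul, Polynomial.reflect_mul _ _ _ h, ih]
    exact Polynomial.natDegree_pow_le.trans (Nat.mul_le_mul_left _ h)

theorem reflect_sum' {ι : Type} (s : Finset ι) (f : ι → Polynomial L) (N : ℕ) :
    (∑ i ∈ s, f i).reflect N = ∑ i ∈ s, (f i).reflect N := by
  classical
  induction s using Finset.induction_on with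
  | empty => rw [Finset.sum_empty, Finset.sum_empty, Polynomial.reflect_zero]
  | insert a s ha ih => rw [Finset.sum_insert ha, Finset.sum_insert ha, Polynomial.reflect_add, ih]

theorem reflect_aeval {k : Type} [Field k] [Algebra k L] (G : MvPolynomial (Fin 3) k) (d e : ℕ)
    (hG : G.IsHomogeneous d) (P : Fin 3 → Polynomial L) (hP : ∀ i, (P i).natDegree ≤ e) :
    aeval (fun i => (P i).reflect e) G = (aeval P G).reflect (d * e) := by
  rw [MvPolynomial.aeval_def, MvPolynomial.aeval_def, MvPolynomial.eval₂_eq',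
    MvPolynomial.eval₂_eq', reflect_sum']
  refine Finset.sum_congr rfl fun s hs => ?_
  have hsd : s 0 + s 1 + s 2 = d := by
    have h1 := hG (MvPolynomial.mem_support_iff.1 hs)
    rw [Finsupp.weight_apply, Finsupp.sum_fintype _ _ (by intro i; simp)] at h1
    simpa [Fin.sum_univ_three] using h1
  have hc : algebraMap k (Polynomial L) (G.coeff s) = Polynomial.C (algebraMap k L (G.coeff s)) :=
    rfl
  rw [hc, Polynomial.reflect_C_mul, Fin.prod_univ_three, Fin.prod_univ_three, ← hsd,
    Nat.add_mul, Nat.add_mul]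
  have hd : ∀ i (n : ℕ), (P i ^ n).natDegree ≤ n * e := fun i n =>
    Polynomial.natDegree_pow_le.trans (Nat.mul_le_mul_left _ (hP i))
  rw [Polynomial.reflect_mul _ _ (Polynomial.natDegree_mul_le.trans (add_le_add (hd _ _) (hd _ _)))
    (hd _ _), Polynomial.reflect_mul _ _ (hd _ _) (hd _ _), reflect_pow' _ _ (hP _),
    reflect_pow' _ _ (hP _), reflect_pow' _ _ (hP _)]

/-- the logarithmic derivative of the reflected polynomial -/
theorem X_derivative_reflect (A : Polynomial L) (e : ℕ) (h : A.natDegree ≤ e) :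
    Polynomial.X * Polynomial.derivative (A.reflect e) =
      Polynomial.C (e : L) * A.reflect e - (Polynomial.X * Polynomial.derivative A).reflect e := by
  have hX : ∀ (B : Polynomial L) (j : ℕ), (Polynomial.X * Polynomial.derivative B).coeff j =
      B.coeff j * j := by
    intro B j
    cases j with
    | zero => rw [Polynomial.coeff_X_mul_zero, Nat.cast_zero, mul_zero]
    | succ n => rw [Polynomial.coeff_X_mul, Polynomial.coeff_derivative]; push_cast; ring
  ext j
  rw [hX, Polynomial.coeff_sub, Polynomial.coeff_C_mul, Polynomial.coeff_reflect,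
    Polynomial.coeff_reflect, hX]
  rcases le_or_gt j e with hj | hj
  · rw [Polynomial.revAt_le hj]
    push_cast [Nat.cast_sub hj]
    ring
  · rw [Polynomial.revAt_eq_self_of_lt hj, Polynomial.coeff_eq_zero_of_natDegree_lt (by omega)]
    ring

end refl

/-! ### proportional polynomials -/

section prop

variable {L : Type} [Field L] [CharZero L]

theorem natDegree_eq_of (f g : Polynomial L) (hf : f ≠ 0) (hg : g ≠ 0)
    (h : Polynomial.derivative f * g = f * Polynomial.derivative g) :
    f.natDegree = g.natDegree := by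
  have hX : ∀ (B : Polynomial L) (j : ℕ), (Polynomial.X * Polynomial.derivative B).coeff j =
      B.coeff j * j := by
    intro B j
    cases j with
    | zero => rw [Polynomial.coeff_X_mul_zero, Nat.cast_zero, mul_zero]
    | succ n => rw [Polynomial.coeff_X_mul, Polynomial.coeff_derivative]; push_cast; ring
  have hXd : ∀ B : Polynomial L, (Polynomial.X * Polynomial.derivative B).natDegree ≤
      B.natDegree := by
    intro B
    rw [Polynomial.natDegree_le_iff_coeff_eq_zero]
    intro n hn
    rw [hX, Polynomial.coeff_eq_zero_of_natDegree_lt hn, zero_mul]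
  have h1 : (Polynomial.X * Polynomial.derivative f) * g =
      f * (Polynomial.X * Polynomial.derivative g) := by
    rw [mul_assoc, h]; ring
  have h2 := congrArg (fun z => z.coeff (f.natDegree + g.natDegree)) h1
  rw [Polynomial.coeff_mul_add_eq_of_natDegree_le (hXd f) le_rfl,
    Polynomial.coeff_mul_add_eq_of_natDegree_le le_rfl (hXd g), hX, hX] at h2
  have hf' : f.coeff f.natDegree ≠ 0 := Polynomial.leadingCoeff_ne_zero.2 hf
  have hg' : g.coeff g.natDegree ≠ 0 := Polynomial.leadingCoeff_ne_zero.2 hg
  have h3 : (f.natDegree : L) = g.natDegree := by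
    have : f.coeff f.natDegree * g.coeff g.natDegree * (f.natDegree : L) =
        f.coeff f.natDegree * g.coeff g.natDegree * (g.natDegree : L) := by
      linear_combination h2
    exact mul_left_cancel₀ (mul_ne_zero hf' hg') this
  exact_mod_cast h3

theorem exists_const (f g : Polynomial L) (hg : g ≠ 0)
    (h : Polynomial.derivative f * g = f * Polynomial.derivative g) :
    ∃ a : L, f = Polynomial.C a * g := by
  by_cases hf : f = 0
  · exact ⟨0, by rw [hf, Polynomial.C_0, zero_mul]⟩
  have hdeg := natDegree_eq_of f g hf hg h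
  have hg' : g.leadingCoeff ≠ 0 := Polynomial.leadingCoeff_ne_zero.2 hg
  refine ⟨f.leadingCoeff / g.leadingCoeff, ?_⟩
  set a : L := f.leadingCoeff / g.leadingCoeff with ha
  by_contra hne
  have h0 : f - Polynomial.C a * g ≠ 0 := sub_ne_zero.2 hne
  have h1 : Polynomial.derivative (f - Polynomial.C a * g) * g =
      (f - Polynomial.C a * g) * Polynomial.derivative g := by
    rw [Polynomial.derivative_sub, Polynomial.derivative_C_mul]
    linear_combination h
  have h2 := natDegree_eq_of _ g h0 hg h1
  have h3 : (f - Polynomial.C a * g).coeff g.natDegree = 0 := by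
    rw [Polynomial.coeff_sub, Polynomial.coeff_C_mul]
    have e1 : f.coeff g.natDegree = f.leadingCoeff := by rw [← hdeg]; rfl
    have e2 : g.coeff g.natDegree = g.leadingCoeff := rfl
    rw [e1, e2, ha, div_mul_cancel₀ _ hg', sub_self]
  rw [← h2] at h3
  exact Polynomial.leadingCoeff_ne_zero.2 h0 h3

end prop

/-! ### determinants of polynomials -/

section det

variable {M : Type} [Field M]

theorem dt_def {L : Type} [CommRing L] (a b c : Fin 3 → L) : dt a b c =
    a 0 * (b 1 * c 2 - b 2 * c 1) + a 1 * (b 2 * c 0 - b 0 * c 2) +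
      a 2 * (b 0 * c 1 - b 1 * c 0) := by
  unfold dt dp
  rw [Fin.sum_univ_three]
  rfl

theorem dt_map {A B : Type} [CommRing A] [CommRing B] (f : A →+* B) (a b c : Fin 3 → A) :
    f (dt a b c) = dt (fun i => f (a i)) (fun i => f (b i)) (fun i => f (c i)) := by
  rw [dt_def, dt_def]
  simp only [map_add, map_mul, map_sub]

theorem prod3_natDegree (e : ℕ) (x y z : Polynomial M) (hx : x.natDegree ≤ e)
    (hy : y.natDegree ≤ e) (hz : z.natDegree ≤ e) : (x * (y * z)).natDegree ≤ 3 * e := by
  refine Polynomial.natDegree_mul_le.trans ?_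
  have := Polynomial.natDegree_mul_le (p := y) (q := z)
  omega

theorem dt_natDegree (e : ℕ) (a b c : Fin 3 → Polynomial M) (ha : ∀ i, (a i).natDegree ≤ e)
    (hb : ∀ i, (b i).natDegree ≤ e) (hc : ∀ i, (c i).natDegree ≤ e) :
    (dt a b c).natDegree ≤ 3 * e := by
  rw [dt_def]
  simp only [mul_sub]
  have h : ∀ i j l, (a i * (b j * c l)).natDegree ≤ 3 * e := fun i j l =>
    prod3_natDegree e _ _ _ (ha i) (hb j) (hc l)
  have hs : ∀ x y : Polynomial M, x.natDegree ≤ 3 * e → y.natDegree ≤ 3 * e →
      (x - y).natDegree ≤ 3 * e := fun x y hx hy =>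
    (Polynomial.natDegree_sub_le x y).trans (max_le hx hy)
  have ha' : ∀ x y : Polynomial M, x.natDegree ≤ 3 * e → y.natDegree ≤ 3 * e →
      (x + y).natDegree ≤ 3 * e := fun x y hx hy =>
    (Polynomial.natDegree_add_le x y).trans (max_le hx hy)
  exact ha' _ _ (ha' _ _ (hs _ _ (h _ _ _) (h _ _ _)) (hs _ _ (h _ _ _) (h _ _ _)))
    (hs _ _ (h _ _ _) (h _ _ _))

theorem dt_reflect (e : ℕ) (a b c : Fin 3 → Polynomial M) (ha : ∀ i, (a i).natDegree ≤ e)
    (hb : ∀ i, (b i).natDegree ≤ e) (hc : ∀ i, (c i).natDegree ≤ e) :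
    dt (fun i => (a i).reflect e) (fun i => (b i).reflect e) (fun i => (c i).reflect e) =
      (dt a b c).reflect (3 * e) := by
  rw [dt_def, dt_def]
  have h : ∀ i j l, (a i).reflect e * ((b j).reflect e * (c l).reflect e) =
      (a i * (b j * c l)).reflect (3 * e) := by
    intro i j l
    have h2 : 3 * e = e + (e + e) := by ring
    rw [h2, Polynomial.reflect_mul _ _ (ha i) (Polynomial.natDegree_mul_le.trans
      (add_le_add (hb j) (hc l))), Polynomial.reflect_mul _ _ (hb j) (hc l)]
  simp only [mul_sub, h, Polynomial.reflect_add, Polynomial.reflect_sub]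

/-- a determinant which is divisible at both ends vanishes -/
theorem both_ends (D : Polynomial M) (d e m : ℕ) (hd : 4 ≤ d) (he : 1 ≤ e)
    (hD : D.natDegree ≤ 3 * e) (h1 : Polynomial.X ^ m ∣ D)
    (h2 : m ≤ d * e → Polynomial.X ^ (d * e - m) ∣ D.reflect (3 * e)) : D = 0 := by
  ext j
  rw [Polynomial.coeff_zero]
  rcases lt_or_ge (3 * e) j with hj | hj
  · exact Polynomial.coeff_eq_zero_of_natDegree_lt (by omega)
  rcases lt_or_ge j m with hjm | hjm
  · exact Polynomial.X_pow_dvd_iff.1 h1 j hjm
  have hde : 4 * e ≤ d * e := Nat.mul_le_mul_right _ hd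
  have h3 := Polynomial.X_pow_dvd_iff.1 (h2 (by omega)) (3 * e - j) (by omega)
  rw [Polynomial.coeff_reflect, Polynomial.revAt_le (by omega)] at h3
  rwa [show 3 * e - (3 * e - j) = j by omega] at h3

end det

end Pool.Agent.H19.SL
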