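import Pool.Agent.H29.SL.Targets2
import Pool.Agent.H48.SL.L2

/-!
Module `L3` of the board `so_modules` (`MP_5b3ee2_nt`): assembly of the cubic lemma with the
exponent `8`.
-/

set_option autoImplicit false

namespace Pool.Agent.H19.SL

open Pool.Agent.H29.SL Pool.Agent.H48.SLL2

theorem pf_L3 (hW : T_W1) (h1 : T_M1) (h2 : T_M2) (h3 : T_M3) (h4 : T_M4) (h18 : T_X18) :
    T_L3 := by
  intro p q c a e u hp hp7 hq hq4 hc hca ha hu he1 he5 hd hX
  have hs := split hp hp7 hd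
  have h21 : ¬ (p = 7 ∧ u = 3) := by
    rintro ⟨rfl, rfl⟩
    exact h18 q e a hq hq4 ha hX
  have hq5 : 5 ≤ q := by
    have := hq.two_le
    omega
  rcases Nat.lt_or_ge c 4 with hc4 | hc4
  · interval_cases c
    · rw [pow_one] at hs
      exact h1 p u _ hp hp7 hu rfl hs
    · exact (h2 p u _ hp hp7 rfl hs).resolve_left h21
    · exact (h3 p u _ hp hp7 rfl hs).resolve_left h21
  · have hle : p - 1 ≤ (p - 1) * u := Nat.le_mul_of_pos_right _ hu.pos
    obtain ⟨hw1, hw2⟩ := hW p q c a e ((p - 1) * u) hp hq hq5 hp7 hc hca ha he1 he5 hle hX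
    exact h4 p c u _ hp hp7 hc4 rfl hw1 hw2 hs

end Pool.Agent.H19.SL
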