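import Pool.Agent.H29.SL.Targets2

/-!
Module `X18` of the board `so_modules` (`MP_5b3ee2_nt`): `18 q ^ e + 1` is not a power of `7`
with odd exponent (in fact with any exponent) for a prime `q % 4 = 1`.
-/

set_option autoImplicit false

namespace Pool.Agent.H19.SL

open Pool.Agent.H29.SL

theorem pf_X18 : T_X18 := by
  intro q e a hq hq4 _ h
  obtain ⟨b, r, hr, hab⟩ : ∃ b r, r < 3 ∧ a + 1 = 3 * b + r :=
    ⟨(a + 1) / 3, (a + 1) % 3, Nat.mod_lt _ (by norm_num), by omega⟩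
  rw [hab, pow_add, pow_mul] at h
  have h9 : (7 ^ 3) ^ b ≡ 1 [MOD 9] := by
    have h1 : 7 ^ 3 ≡ 1 [MOD 9] := by decide
    simpa using h1.pow b
  have h19 : (7 ^ 3) ^ b ≡ 1 [MOD 19] := by
    have h1 : 7 ^ 3 ≡ 1 [MOD 19] := by decide
    simpa using h1.pow b
  have h2 : (q ^ e * 18 + 1) % 9 = 1 := by omega
  have h3 : ((7 ^ 3) ^ b * 7 ^ r) % 9 = (7 ^ r) % 9 := by
    have := h9.mul_right (7 ^ r)
    rw [one_mul] at this
    exact this
  rw [h, h3] at h2
  have hr0 : r = 0 := by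
    interval_cases r
    · rfl
    · norm_num at h2
    · norm_num at h2
  subst hr0
  rw [pow_zero, mul_one] at h
  rw [← h] at h19
  have h4 : 19 ∣ q ^ e * 18 := by
    have h5 : (q ^ e * 18 + 1) % 19 = 1 := h19
    omega
  have h5 : 19 ∣ q ^ e := by
    rcases (Nat.Prime.dvd_mul (by norm_num)).1 h4 with h6 | h6
    · exact h6
    · norm_num at h6
  have h6 : 19 ∣ q := Nat.Prime.dvd_of_dvd_pow (by norm_num) h5
  have h7 : 19 = q := (Nat.prime_dvd_prime_iff_eq (by norm_num) hq).1 h6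
  omega

end Pool.Agent.H19.SL
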